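import Pool.Agent.N206.CG.Stm2

/-!
# CG/W1: the monolith of the wreath product (helper749)
-/

set_option autoImplicit false

namespace Pool.Agent.N749.CG.W1

open Classical
open Pool.Agent.N206.CG

section

variable {Z A : Type} [Group A]

lemma sgl_apply (z : Z) (a : A) (y : Z) : (sgl z a).1 y = if y = z then a else 1 := rfl

lemma sgl_self (z : Z) (a : A) : (sgl z a).1 z = a := if_pos rfl

lemma sgl_ne {z y : Z} (a : A) (h : y ≠ z) : (sgl z a).1 y = 1 := if_neg h

lemma mul_val (f g : FS Z A) (y : Z) : (f * g).1 y = f.1 y * g.1 y := rfl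

lemma inv_val (f : FS Z A) (y : Z) : (f⁻¹).1 y = (f.1 y)⁻¹ := rfl

lemma one_val (y : Z) : (1 : FS Z A).1 y = 1 := rfl

/-- the factor at `z` as a homomorphism -/
noncomputable def sh (z : Z) : A →* FS Z A where
  toFun a := sgl z a
  map_one' := by
    apply Subtype.ext
    funext y
    rw [sgl_apply]
    split_ifs <;> rfl
  map_mul' a a' := by
    apply Subtype.ext
    funext y
    rw [mul_val, sgl_apply, sgl_apply, sgl_apply]
    split_ifs
    · rfl
    · rw [mul_one]

lemma sh_apply (z : Z) (a : A) : sh z a = sgl z a := rfl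

/-- a commutator with an element of a factor -/
lemma comm_sgl (k : FS Z A) (z : Z) (a : A) :
    k * sgl z a * k⁻¹ * (sgl z a)⁻¹ = sgl z (k.1 z * a * (k.1 z)⁻¹ * a⁻¹) := by
  apply Subtype.ext
  funext y
  rw [mul_val, mul_val, mul_val, inv_val, inv_val, sgl_apply, sgl_apply]
  split_ifs with h
  · rw [h]
  · rw [mul_one, inv_one, mul_one, mul_inv_cancel]

/-- finitely supported functions are products of elements of the factors -/
lemma mem_of_sgl (M : Subgroup (FS Z A)) (h : ∀ z a, sgl z a ∈ M) (k : FS Z A) : k ∈ M := by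
  have key : ∀ (s : Finset Z) (k : FS Z A), (∀ y, y ∉ s → k.1 y = 1) → k ∈ M := by
    intro s
    induction s using Finset.induction_on with
    | empty =>
      intro k hk
      have : k = 1 := Subtype.ext (funext fun y => hk y (Finset.notMem_empty y))
      rw [this]
      exact M.one_mem
    | insert z s _ ih =>
      intro k hk
      have h1 : (sgl z (k.1 z))⁻¹ * k ∈ M := by
        apply ih
        intro y hy
        rw [mul_val, inv_val, sgl_apply]
        split_ifs with hyz
        · rw [hyz, inv_mul_cancel]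
        · rw [inv_one, one_mul]
          apply hk
          rw [Finset.mem_insert]
          rintro (h2 | h2)
          · exact hyz h2
          · exact hy h2
      have h2 := M.mul_mem (h z (k.1 z)) h1
      rwa [mul_inv_cancel_left] at h2
  have hfin : (Function.mulSupport k.1).Finite := k.2
  refine key hfin.toFinset k fun y hy => ?_
  rw [Set.Finite.mem_toFinset, Function.mem_mulSupport, not_not] at hy
  exact hy

variable {G : Type} [Group G] [MulAction G Z]

lemma wact_val (g : G) (f : FS Z A) (y : Z) : (wact G Z A g f).1 y = f.1 (g⁻¹ • y) := rfl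

lemma wact_sgl (g : G) (z : Z) (a : A) : wact G Z A g (sgl z a) = sgl (g • z) a := by
  apply Subtype.ext
  funext y
  rw [wact_val, sgl_apply, sgl_apply]
  exact if_congr inv_smul_eq_iff rfl rfl

end

lemma exists_noncomm (x : A5) (hx : x ≠ 1) : ∃ a : A5, x * a * x⁻¹ * a⁻¹ ≠ 1 := by
  by_contra h
  push Not at h
  have h1 : x ∈ Subgroup.center A5 := by
    rw [Subgroup.mem_center_iff]
    intro a
    have h2 := h a
    rw [mul_inv_eq_one, mul_inv_eq_iff_eq_mul] at h2
    exact h2.symm
  have h3 : Subgroup.center A5 = ⊥ := by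
    apply alternatingGroup.center_eq_bot
    simp
  rw [h3, Subgroup.mem_bot] at h1
  exact hx h1

/-- the general form -/
theorem gen {Z : Type} {G : Type} [Group G] [MulAction G Z] (htr : ∀ x y : Z, ∃ g : G, g • x = y)
    (hf : ∀ g : G, (∀ z : Z, g • z = z) → g = 1)
    (N : Subgroup (FS Z A5 ⋊[wact G Z A5] G)) (hN : N.Normal) (hne : N ≠ ⊥) (k : FS Z A5) :
    SemidirectProduct.inl k ∈ N := by
  -- step 1
  have h1 : ∃ k : FS Z A5, SemidirectProduct.inl k ∈ N ∧ ∃ z, k.1 z ≠ 1 := by
    obtain ⟨w, hw, hw1⟩ := N.bot_or_exists_ne_one.resolve_left hne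
    by_cases hg : w.right = 1
    · have e : w = SemidirectProduct.inl w.left := by
        refine SemidirectProduct.ext rfl ?_
        rw [hg, SemidirectProduct.right_inl]
      refine ⟨w.left, by rwa [← e], ?_⟩
      by_contra h
      push Not at h
      apply hw1
      have h2 : w.left = 1 := Subtype.ext (funext h)
      rw [e, h2, map_one]
    · obtain ⟨z, hz⟩ : ∃ z : Z, w.right • z ≠ z := by
        by_contra h
        push Not at h
        exact hg (hf _ h)
      obtain ⟨a, ha⟩ := exists_ne (1 : A5)
      have e : w * SemidirectProduct.inl (sgl z a) * w⁻¹ * (SemidirectProduct.inl (sgl z a))⁻¹ =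
          SemidirectProduct.inl (w.left * wact G Z A5 w.right (sgl z a) * w.left⁻¹ *
            (sgl z a)⁻¹) := by
        have e1 := SemidirectProduct.inl_left_mul_inr_right w
        have e2 := SemidirectProduct.inl_aut (φ := wact G Z A5) w.right (sgl z a)
        rw [map_mul, map_mul, map_mul, map_inv, map_inv, e2]
        conv_lhs => rw [← e1]
        rw [mul_inv_rev, map_inv]
        group
      refine ⟨w.left * wact G Z A5 w.right (sgl z a) * w.left⁻¹ * (sgl z a)⁻¹, ?_, z, ?_⟩
      · rw [← e]
        have h2 := hN.conj_mem _ (N.inv_mem hw) (SemidirectProduct.inl (sgl z a))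
        have h3 := N.mul_mem hw h2
        rwa [← mul_assoc, ← mul_assoc] at h3
      · rw [mul_val, mul_val, mul_val, inv_val, inv_val, wact_sgl, sgl_self,
          sgl_ne a (Ne.symm hz), mul_one, mul_inv_cancel, one_mul]
        exact inv_ne_one.2 ha
  obtain ⟨k₀, hk₀, z, hz⟩ := h1
  -- step 2
  have h2 : ∀ a, SemidirectProduct.inl (sgl z a) ∈ N := by
    obtain ⟨a, ha⟩ := exists_noncomm _ hz
    let M : Subgroup A5 := N.comap ((SemidirectProduct.inl (φ := wact G Z A5)).comp (sh z))
    have hM : M.Normal := hN.comap _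
    rcases hM.eq_bot_or_eq_top with h | h
    · exfalso
      apply ha
      have h3 : k₀.1 z * a * (k₀.1 z)⁻¹ * a⁻¹ ∈ M := by
        show SemidirectProduct.inl (sgl z _) ∈ N
        rw [← comm_sgl, map_mul, map_mul, map_mul, map_inv, map_inv]
        have h4 := hN.conj_mem _ (N.inv_mem hk₀) (SemidirectProduct.inl (sgl z a))
        have h5 := N.mul_mem hk₀ h4
        rwa [← mul_assoc, ← mul_assoc] at h5
      rw [h, Subgroup.mem_bot] at h3
      exact h3
    · intro a
      have : a ∈ M := by rw [h]; exact Subgroup.mem_top a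
      exact this
  -- step 3
  have h3 : ∀ y a, SemidirectProduct.inl (sgl y a) ∈ N := by
    intro y a
    obtain ⟨g, rfl⟩ := htr z y
    have h4 := hN.conj_mem _ (h2 a) (SemidirectProduct.inr g)
    have h5 := SemidirectProduct.inl_aut (φ := wact G Z A5) g (sgl z a)
    rw [wact_sgl, map_inv] at h5
    rw [h5]
    exact h4
  exact mem_of_sgl (N.comap (SemidirectProduct.inl (φ := wact G Z A5))) h3 k

theorem t_W1 (G : Type) [Group G] (U : Subgroup G) : S_W1 G U := by
  intro hU N hN hne k
  refine gen (fun x y => MulAction.exists_smul_eq G x y) (fun g hg => ?_) N hN hne k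
  have h1 : g ∈ U.normalCore := by
    intro b
    have h2 := hg ((b⁻¹ : G) : G ⧸ U)
    rw [MulAction.Quotient.smul_coe, smul_eq_mul, eq_comm, QuotientGroup.eq, inv_inv, ← mul_assoc] at h2
    exact h2
  rw [hU, Subgroup.mem_bot] at h1
  exact h1

end Pool.Agent.N749.CG.W1
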